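import Mathlib

set_option autoImplicit false

/-! Spheres in boxes: sets in abelian groups without nontrivial solutions of `b_1 + ... + b_k = k b_0`. -/

namespace Pool.Agent.H78.CR

open Finset

/-- points of a box on a sphere -/
abbrev Sph (d m r : ℕ) : Type := {v : Fin d → Fin m // ∑ t, (v t : ℕ) ^ 2 = r}

lemma sph_large (d m : ℕ) (hd : 1 ≤ d) (hm : 1 ≤ m) :
    ∃ r, m ^ d ≤ Fintype.card (Sph d m r) * (d * m ^ 2) := by
  classical
  by_contra hcon
  push Not at hcon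
  have h1 : Fintype.card (Fin d → Fin m) = m ^ d := by simp
  have hmap : ∀ v ∈ (univ : Finset (Fin d → Fin m)), ∑ t, (v t : ℕ) ^ 2 ∈ range (d * m ^ 2) := by
    intro v _
    rw [mem_range]
    have h2 : ∑ t, (v t : ℕ) ^ 2 < ∑ _t : Fin d, m ^ 2 := by
      apply sum_lt_sum_of_nonempty ⟨⟨0, by omega⟩, mem_univ _⟩
      intro t _
      exact Nat.pow_lt_pow_left (v t).2 (by norm_num)
    simpa using h2
  have h2 := card_eq_sum_card_fiberwise (s := (univ : Finset (Fin d → Fin m))) (t := range (d * m ^ 2))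
    (f := fun v => ∑ t, (v t : ℕ) ^ 2) (fun v hv => hmap v hv)
  rw [card_univ, h1] at h2
  have h3 : ∀ r ∈ range (d * m ^ 2), ((univ : Finset (Fin d → Fin m)).filter
      (fun v => ∑ t, (v t : ℕ) ^ 2 = r)).card * (d * m ^ 2) < m ^ d := by
    intro r _
    have h4 := hcon r
    have h5 : Fintype.card (Sph d m r) = ((univ : Finset (Fin d → Fin m)).filter
      (fun v => ∑ t, (v t : ℕ) ^ 2 = r)).card := by
      exact Fintype.card_subtype _
    rw [h5] at h4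
    exact h4
  have hpos : 0 < d * m ^ 2 := by positivity
  have h6 : (∑ r ∈ range (d * m ^ 2), ((univ : Finset (Fin d → Fin m)).filter
      (fun v => ∑ t, (v t : ℕ) ^ 2 = r)).card) * (d * m ^ 2) < (d * m ^ 2) * m ^ d := by
    rw [sum_mul]
    calc _ < ∑ _r ∈ range (d * m ^ 2), m ^ d :=
          sum_lt_sum_of_nonempty ⟨0, mem_range.2 hpos⟩ h3
      _ = _ := by rw [sum_const, card_range, smul_eq_mul]
  rw [← h2, mul_comm] at h6
  exact lt_irrefl _ h6

/-- strict convexity -/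
lemma sph_unique (k d m r : ℕ) (y : Fin k → Sph d m r) (j : Sph d m r)
    (h : ∀ t, ∑ i, ((y i).1 t : ℕ) = k * (j.1 t : ℕ)) : ∀ i, y i = j := by
  have hz : ∑ i, ∑ t, (((y i).1 t : ℤ) - (j.1 t : ℤ)) ^ 2 = 0 := by
    have e : ∀ i, ∑ t, (((y i).1 t : ℤ) - (j.1 t : ℤ)) ^ 2 =
        2 * r - 2 * ∑ t, ((y i).1 t : ℤ) * (j.1 t : ℤ) := by
      intro i
      have h1 : ∑ t, ((y i).1 t : ℤ) ^ 2 = r := by exact_mod_cast (y i).2
      have h2 : ∑ t, (j.1 t : ℤ) ^ 2 = r := by exact_mod_cast j.2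
      have h3 : ∑ t, (((y i).1 t : ℤ) - (j.1 t : ℤ)) ^ 2 =
          ∑ t, ((y i).1 t : ℤ) ^ 2 + ∑ t, (j.1 t : ℤ) ^ 2 - 2 * ∑ t, ((y i).1 t : ℤ) * (j.1 t : ℤ) := by
        rw [mul_sum, ← sum_add_distrib, ← sum_sub_distrib]
        exact sum_congr rfl fun t _ => by ring
      rw [h3, h1, h2]
      ring
    simp_rw [e]
    rw [sum_sub_distrib, ← mul_sum, ← mul_sum, sum_comm]
    have h4 : ∀ t, ∑ i, ((y i).1 t : ℤ) * (j.1 t : ℤ) = k * (j.1 t : ℤ) ^ 2 := by
      intro t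
      rw [← sum_mul]
      have h5 : ∑ i, ((y i).1 t : ℤ) = k * (j.1 t : ℤ) := by exact_mod_cast h t
      rw [h5]
      ring
    simp_rw [h4]
    rw [← mul_sum]
    have h2 : ∑ t, (j.1 t : ℤ) ^ 2 = r := by exact_mod_cast j.2
    rw [h2]
    simp
  intro i
  have h1 := (sum_eq_zero_iff_of_nonneg (fun i _ => sum_nonneg fun t _ => sq_nonneg _)).1 hz i (mem_univ i)
  apply Subtype.ext
  funext t
  have h2 := (sum_eq_zero_iff_of_nonneg (fun t _ => sq_nonneg _)).1 h1 t (mem_univ t)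
  have h3 := pow_eq_zero_iff (two_ne_zero) |>.1 h2
  apply Fin.ext
  have h4 : ((y i).1 t : ℤ) = (j.1 t : ℤ) := by linarith
  exact_mod_cast h4

theorem exists_cap (k : ℕ) (hk : 1 ≤ k) (τ : ℝ) (hτ : τ < k) :
    ∃ (K : Type) (_ : AddCommGroup K) (_ : Fintype K) (J : Type) (_ : Fintype J) (b : J → K),
      (∀ (y : Fin k → J) (j : J), ∑ i, b (y i) = k • b j → ∀ i, y i = j) ∧
      1 < Fintype.card K ∧ 0 < Fintype.card J ∧ (Fintype.card K : ℝ) ^ τ < (Fintype.card J : ℝ) ^ k := by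
  set τ' : ℝ := max τ 0 with hτ'
  have hτ'k : τ' < k := max_lt hτ (by exact_mod_cast hk)
  have hτ'0 : 0 ≤ τ' := le_max_right _ _
  obtain ⟨d, hd⟩ := exists_nat_gt (2 * k / (k - τ') : ℝ)
  have hkt : 0 < (k : ℝ) - τ' := by linarith
  rw [div_lt_iff₀ hkt] at hd
  have hk0 : (1 : ℝ) ≤ k := by exact_mod_cast hk
  have hd3 : 2 < d := by
    by_contra h
    push Not at h
    have h1 : (d : ℝ) ≤ 2 := by exact_mod_cast h
    have h2 : (d : ℝ) * (k - τ') ≤ 2 * (k - τ') := mul_le_mul_of_nonneg_right h1 hkt.le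
    nlinarith
  set s : ℝ := ((d : ℝ) - 2) * k - d * τ' with hs
  have hs0 : 0 < s := by rw [hs]; linarith
  have ht := tendsto_rpow_atTop hs0
  have ht2 := (ht.comp tendsto_natCast_atTop_atTop).eventually_gt_atTop ((k : ℝ) ^ (d * τ') * (d : ℝ) ^ k)
  obtain ⟨m, hm, hm2⟩ := (ht2.and (Filter.eventually_ge_atTop 2)).exists
  simp only [Function.comp] at hm
  have hm0 : (0 : ℝ) < m := by
    have : 0 < m := by omega
    exact_mod_cast this
  obtain ⟨r, hr⟩ := sph_large d m (by omega) (by omega)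
  have hkm : 0 < k * m := Nat.mul_pos (by omega) (by omega)
  have : NeZero (k * m) := ⟨hkm.ne'⟩
  have hcK : Fintype.card (Fin d → ZMod (k * m)) = (k * m) ^ d := by
    rw [Fintype.card_fun, ZMod.card, Fintype.card_fin]
  refine ⟨Fin d → ZMod (k * m), inferInstance, inferInstance, Sph d m r, inferInstance,
    fun v t => (((v.1 t : ℕ)) : ZMod (k * m)), ?_, ?_, ?_, ?_⟩
  · intro y j hyj
    apply sph_unique
    intro t
    have h1 := congrFun hyj t
    rw [Finset.sum_apply, Pi.smul_apply] at h1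
    have h2 : ((∑ i, ((y i).1 t : ℕ) : ℕ) : ZMod (k * m)) = ((k * (j.1 t : ℕ) : ℕ) : ZMod (k * m)) := by
      push_cast
      rw [h1, nsmul_eq_mul]
    rw [ZMod.natCast_eq_natCast_iff'] at h2
    have h3 : ∑ i, ((y i).1 t : ℕ) < k * m := by
      calc ∑ i, ((y i).1 t : ℕ) < ∑ _i : Fin k, m :=
            sum_lt_sum_of_nonempty ⟨⟨0, by omega⟩, mem_univ _⟩ (fun i _ => ((y i).1 t).2)
        _ = k * m := by simp
    have h4 : k * (j.1 t : ℕ) < k * m := Nat.mul_lt_mul_of_pos_left (j.1 t).2 (by omega)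
    rw [Nat.mod_eq_of_lt h3, Nat.mod_eq_of_lt h4] at h2
    exact h2
  · rw [hcK]
    have : 2 ≤ k * m := by nlinarith
    exact Nat.one_lt_pow (by omega) (by omega)
  · by_contra h
    have h0 : Fintype.card (Sph d m r) = 0 := by omega
    rw [h0, zero_mul] at hr
    have : 0 < m ^ d := Nat.pow_pos (by omega)
    omega
  · rw [hcK]
    have hC1 : (1 : ℝ) ≤ ((k * m) ^ d : ℕ) := by
      have : 1 ≤ (k * m) ^ d := Nat.one_le_pow _ _ hkm
      exact_mod_cast this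
    have a1 : (((k * m) ^ d : ℕ) : ℝ) ^ τ ≤ (((k * m) ^ d : ℕ) : ℝ) ^ τ' :=
      Real.rpow_le_rpow_of_exponent_le hC1 (le_max_left _ _)
    refine a1.trans_lt ?_
    have hd0 : (0 : ℝ) < d := by
      have : 0 < d := by omega
      exact_mod_cast this
    have b1 : (m : ℝ) ^ ((d : ℝ) - 2) / d ≤ Fintype.card (Sph d m r) := by
      rw [div_le_iff₀ hd0]
      have h1 : ((m ^ d : ℕ) : ℝ) ≤ ((Fintype.card (Sph d m r) * (d * m ^ 2) : ℕ) : ℝ) := by exact_mod_cast hr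
      push_cast at h1
      rw [Real.rpow_sub hm0, Real.rpow_natCast]
      rw [div_le_iff₀ (by positivity)]
      have e : (m : ℝ) ^ (2 : ℝ) = (m : ℝ) ^ 2 := by norm_cast
      rw [e]
      calc (m : ℝ) ^ d ≤ _ := h1
        _ = _ := by ring
    have b2 : ((m : ℝ) ^ ((d : ℝ) - 2) / d) ^ k ≤ (Fintype.card (Sph d m r) : ℝ) ^ k :=
      pow_le_pow_left₀ (by positivity) b1 k
    refine lt_of_lt_of_le ?_ b2
    rw [div_pow, lt_div_iff₀ (by positivity)]
    have e1 : (((k * m) ^ d : ℕ) : ℝ) ^ τ' = (k : ℝ) ^ (d * τ') * (m : ℝ) ^ (d * τ') := by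
      push_cast
      rw [← Real.rpow_natCast, ← Real.rpow_mul (by positivity), Real.mul_rpow (by positivity) (by positivity)]
    have e2 : ((m : ℝ) ^ ((d : ℝ) - 2)) ^ k = (m : ℝ) ^ s * (m : ℝ) ^ (d * τ') := by
      rw [← Real.rpow_natCast, ← Real.rpow_mul hm0.le, ← Real.rpow_add hm0]
      congr 1
      rw [hs]
      ring
    rw [e1, e2]
    have hmt : 0 < (m : ℝ) ^ (d * τ') := Real.rpow_pos_of_pos hm0 _
    calc (k : ℝ) ^ (d * τ') * (m : ℝ) ^ (d * τ') * (d : ℝ) ^ k =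
          ((k : ℝ) ^ (d * τ') * (d : ℝ) ^ k) * (m : ℝ) ^ (d * τ') := by ring
      _ < (m : ℝ) ^ s * (m : ℝ) ^ (d * τ') := mul_lt_mul_of_pos_right hm hmt

end Pool.Agent.H78.CR
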