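import Mathlib

set_option autoImplicit false

/-! An iterated Cauchy-Schwarz inequality for commuting families of measure preserving maps. -/

namespace Pool.Agent.H78.CR

open Finset MeasureTheory

universe u v w

section

variable {Ω : Type u} [MeasurableSpace Ω] {μ : Measure Ω} [IsProbabilityMeasure μ]
variable {G : Type v} [AddCommGroup G] [AddAction G Ω]

/-- measurable with values in `[0,1]` -/
def Good (f : Ω → ℝ) : Prop := Measurable f ∧ ∀ ω, 0 ≤ f ω ∧ f ω ≤ 1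

lemma Good.int {f : Ω → ℝ} (hf : Good f) : Integrable f μ := by
  refine Integrable.of_bound (C := 1) hf.1.aestronglyMeasurable ?_
  filter_upwards with ω
  rw [Real.norm_eq_abs, abs_of_nonneg (hf.2 ω).1]
  exact (hf.2 ω).2

lemma Good.mul {f g : Ω → ℝ} (hf : Good f) (hg : Good g) : Good (fun ω => f ω * g ω) :=
  ⟨hf.1.mul hg.1, fun ω => ⟨mul_nonneg (hf.2 ω).1 (hg.2 ω).1,
    mul_le_one₀ (hf.2 ω).2 (hg.2 ω).1 (hg.2 ω).2⟩⟩

/-- average over a finite type -/
noncomputable def av {ι : Type w} [Fintype ι] (F : ι → ℝ) : ℝ := (∑ i, F i) / (Fintype.card ι : ℝ)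

lemma av_mono {ι : Type w} [Fintype ι] {F H : ι → ℝ} (h : ∀ i, F i ≤ H i) : av F ≤ av H := by
  unfold av
  exact div_le_div_of_nonneg_right (sum_le_sum fun i _ => h i) (by positivity)

lemma av_const {ι : Type w} [Fintype ι] [Nonempty ι] (c : ℝ) : av (fun _ : ι => c) = c := by
  unfold av
  rw [sum_const, nsmul_eq_mul, card_univ]
  have : (Fintype.card ι : ℝ) ≠ 0 := by exact_mod_cast Fintype.card_ne_zero
  field_simp

lemma av_mul_left {ι : Type w} [Fintype ι] (F : ι → ℝ) (c : ℝ) : av (fun i => c * F i) = c * av F := by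
  unfold av
  rw [← mul_sum, mul_div_assoc]

lemma good_av {ι : Type w} [Fintype ι] [Nonempty ι] {f : ι → Ω → ℝ} (hf : ∀ i, Good (f i)) :
    Good (fun ω => av (fun i => f i ω)) := by
  refine ⟨?_, fun ω => ⟨?_, ?_⟩⟩
  · unfold av
    exact (Finset.measurable_sum _ fun i _ => (hf i).1).div_const _
  · calc (0 : ℝ) = av (fun _ : ι => (0 : ℝ)) := (av_const 0).symm
      _ ≤ _ := av_mono fun i => ((hf i).2 ω).1
  · calc av (fun i => f i ω) ≤ av (fun _ : ι => (1 : ℝ)) := av_mono fun i => ((hf i).2 ω).2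
      _ = 1 := av_const 1

lemma integral_av {ι : Type w} [Fintype ι] {f : ι → Ω → ℝ} (hf : ∀ i, Good (f i)) :
    ∫ ω, av (fun i => f i ω) ∂μ = av (fun i => ∫ ω, f i ω ∂μ) := by
  unfold av
  rw [integral_div, integral_finsetSum _ (fun i _ => (hf i).int)]

lemma av_comm {ι : Type w} {κ : Type w} [Fintype ι] [Fintype κ] (F : ι → κ → ℝ) :
    av (fun i => av (fun j => F i j)) = av (fun j => av (fun i => F i j)) := by
  unfold av
  rw [← sum_div, ← sum_div, div_div, div_div, mul_comm, sum_comm]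

lemma av_prod {ι : Type w} {κ : Type w} [Fintype ι] [Fintype κ] (F : ι × κ → ℝ) :
    av F = av (fun i => av (fun j => F (i, j))) := by
  unfold av
  rw [← sum_div, div_div, Fintype.card_prod, Fintype.sum_prod_type, Nat.cast_mul, mul_comm (Fintype.card κ : ℝ)]

lemma av_equiv {ι : Type w} {κ : Type w} [Fintype ι] [Fintype κ] (e : ι ≃ κ) (F : κ → ℝ) :
    av (fun i => F (e i)) = av F := by
  unfold av
  rw [Fintype.card_congr e]
  congr 1
  exact Equiv.sum_comp e F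

lemma av_cons {ι : Type w} [Fintype ι] (n : ℕ) (F : (Fin (n + 1) → ι) → ℝ) :
    av F = av (fun a : ι => av (fun y : Fin n → ι => F (Fin.cons a y))) := by
  rw [← av_equiv (Fin.consEquiv (fun _ : Fin (n + 1) => ι)) F, av_prod]
  rfl

lemma sq_le_integral_sq {h : Ω → ℝ} (hh : Good h) : (∫ ω, h ω ∂μ) ^ 2 ≤ ∫ ω, h ω * h ω ∂μ := by
  set m := ∫ ω, h ω ∂μ with hm
  have h1 : 0 ≤ ∫ ω, (h ω - m) * (h ω - m) ∂μ := integral_nonneg fun ω => mul_self_nonneg _
  have h2 : ∫ ω, (h ω - m) * (h ω - m) ∂μ = ∫ ω, h ω * h ω ∂μ - m ^ 2 := by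
    have e : (fun ω => (h ω - m) * (h ω - m)) = fun ω => (h ω * h ω - (2 * m) * h ω) + m ^ 2 := by
      funext ω; ring
    have i1 : Integrable (fun ω => h ω * h ω) μ := (hh.mul hh).int
    have i2 : Integrable (fun ω => (2 * m) * h ω) μ := hh.int.const_mul _
    have i3 : Integrable (fun ω => h ω * h ω - (2 * m) * h ω) μ := i1.sub i2
    have c1 : ∫ _ω : Ω, m ^ 2 ∂μ = m ^ 2 := by simp
    rw [e, integral_add i3 (integrable_const _), integral_sub i1 i2, integral_const_mul, ← hm, c1]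
    ring
  linarith

/-- translating -/
lemma good_tr (hmp : ∀ g : G, MeasurePreserving (fun ω : Ω => g +ᵥ ω) μ μ) {f : Ω → ℝ} (hf : Good f) (g : G) :
    Good (fun ω => f (g +ᵥ ω)) :=
  ⟨hf.1.comp (hmp g).measurable, fun ω => hf.2 _⟩

lemma integral_tr (hmp : ∀ g : G, MeasurePreserving (fun ω : Ω => g +ᵥ ω) μ μ) {f : Ω → ℝ} (hf : Good f) (g : G) :
    ∫ ω, f (g +ᵥ ω) ∂μ = ∫ ω, f ω ∂μ := by
  have h := integral_map (hmp g).measurable.aemeasurable (f := f) (by
    rw [(hmp g).map_eq]; exact hf.1.aestronglyMeasurable)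
  rw [(hmp g).map_eq] at h
  exact h.symm

/-- moving a translation to the other factor -/
lemma integral_swap (hmp : ∀ g : G, MeasurePreserving (fun ω : Ω => g +ᵥ ω) μ μ) {f h : Ω → ℝ}
    (hf : Good f) (hh : Good h) (g : G) :
    ∫ ω, f ω * h (g +ᵥ ω) ∂μ = ∫ ω, f (-g +ᵥ ω) * h ω ∂μ := by
  rw [← integral_tr hmp ((good_tr hmp hf (-g)).mul hh) g]
  congr 1
  funext ω
  rw [neg_vadd_vadd]

lemma Good.pow {f : Ω → ℝ} (hf : Good f) (n : ℕ) : Good (fun ω => f ω ^ n) :=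
  ⟨hf.1.pow_const n, fun ω => ⟨pow_nonneg (hf.2 ω).1 n, pow_le_one₀ (hf.2 ω).1 (hf.2 ω).2⟩⟩

lemma Good.rpow {f : Ω → ℝ} (hf : Good f) {q : ℝ} (hq : 0 ≤ q) : Good (fun ω => f ω ^ q) :=
  ⟨hf.1.pow_const q, fun ω => ⟨Real.rpow_nonneg (hf.2 ω).1 q, Real.rpow_le_one (hf.2 ω).1 (hf.2 ω).2 hq⟩⟩

/-- Jensen's inequality -/
lemma jensen {h : Ω → ℝ} (hh : Good h) {q : ℝ} (hq : 1 ≤ q) : (∫ ω, h ω ∂μ) ^ q ≤ ∫ ω, h ω ^ q ∂μ := by
  have h1 := (convexOn_rpow hq).map_integral_le (μ := μ) (f := h)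
    ((Real.continuous_rpow_const (by linarith)).continuousOn) isClosed_Ici
    (Filter.Eventually.of_forall fun ω => (hh.2 ω).1) hh.int (hh.rpow (by linarith)).int
  exact h1

/-- a form of Hoelder's inequality -/
lemma hoelder {ι : Type w} [Fintype ι] [Nonempty ι] (φ f : ι → ℝ) (hφ : ∀ i, 0 ≤ φ i) (hf : ∀ i, 0 ≤ f i ∧ f i ≤ 1)
    (n : ℕ) : av (fun i => φ i * f i) ^ (n + 2) ≤ av (fun i => φ i ^ (n + 2)) * av f ^ (n + 1) := by
  have hM : (0 : ℝ) < Fintype.card ι := by exact_mod_cast Fintype.card_pos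
  set F := ∑ i, f i with hF
  have hF0 : 0 ≤ F := sum_nonneg fun i _ => (hf i).1
  have hP0 : 0 ≤ ∑ i, φ i ^ (n + 2) := sum_nonneg fun i _ => pow_nonneg (hφ i) _
  rcases hF0.eq_or_lt with h0 | hpos
  · have hz : ∀ i, f i = 0 := by
      intro i
      have := (sum_eq_zero_iff_of_nonneg (fun i _ => (hf i).1)).1 h0.symm i (mem_univ i)
      exact this
    have : av (fun i => φ i * f i) = 0 := by
      unfold av
      rw [sum_eq_zero (fun i _ => by rw [hz i, mul_zero]), zero_div]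
    rw [this, zero_pow (by omega)]
    unfold av
    positivity
  · have h1 := Real.pow_arith_mean_le_arith_mean_pow univ (fun i => f i / F) φ
      (fun i _ => div_nonneg (hf i).1 hF0) (by rw [← sum_div]; exact div_self hpos.ne') (fun i _ => hφ i) (n + 2)
    have h2 : ∑ i, f i / F * φ i = (∑ i, φ i * f i) / F := by
      rw [sum_div]
      exact sum_congr rfl fun i _ => by ring
    have h3 : ∑ i, f i / F * φ i ^ (n + 2) ≤ (∑ i, φ i ^ (n + 2)) / F := by
      rw [sum_div]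
      refine sum_le_sum fun i _ => ?_
      rw [div_mul_eq_mul_div]
      exact div_le_div_of_nonneg_right (mul_le_of_le_one_left (pow_nonneg (hφ i) _) (hf i).2) hF0
    rw [h2] at h1
    have h4 := h1.trans h3
    rw [div_pow, div_le_iff₀ (by positivity)] at h4
    unfold av
    rw [div_pow, div_pow, div_mul_div_comm]
    have e : (Fintype.card ι : ℝ) * (Fintype.card ι : ℝ) ^ (n + 1) = (Fintype.card ι : ℝ) ^ (n + 2) := by ring
    rw [e]
    apply div_le_div_of_nonneg_right _ (by positivity)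
    refine h4.trans (le_of_eq ?_)
    rw [← hF, div_mul_eq_mul_div, div_eq_iff hpos.ne']
    ring

/-- `h ^ (n + 2) ≤ y ^ (n + 1)` -/
lemma root_int {h y : Ω → ℝ} (hh : Good h) (hy : Good y) (n : ℕ) (hle : ∀ ω, h ω ^ (n + 2) ≤ y ω ^ (n + 1)) :
    (∫ ω, h ω ∂μ) ^ (n + 2) ≤ (∫ ω, y ω ∂μ) ^ (n + 1) := by
  have hn : (0 : ℝ) < (n : ℝ) + 1 := by positivity
  set q : ℝ := ((n : ℝ) + 2) / (n + 1) with hq
  have hq1 : 1 ≤ q := by
    rw [hq, le_div_iff₀ hn]; linarith
  have h1 : ∀ ω, h ω ^ q ≤ y ω := by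
    intro ω
    have a0 := (hh.2 ω).1
    have b0 := (hy.2 ω).1
    have c1 : (h ω ^ q) ^ (n + 1) ≤ y ω ^ (n + 1) := by
      refine le_trans (le_of_eq ?_) (hle ω)
      rw [← Real.rpow_natCast, ← Real.rpow_mul a0, ← Real.rpow_natCast]
      congr 1
      rw [hq]
      push_cast
      field_simp
    exact le_of_pow_le_pow_left₀ (by omega) b0 c1
  have hI : 0 ≤ ∫ ω, h ω ∂μ := integral_nonneg fun ω => (hh.2 ω).1
  have h2 : (∫ ω, h ω ∂μ) ^ q ≤ ∫ ω, y ω ∂μ :=
    (jensen hh hq1).trans (integral_mono (hh.rpow (by linarith)).int hy.int h1)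
  have h3 : ((∫ ω, h ω ∂μ) ^ q) ^ (n + 1) ≤ (∫ ω, y ω ∂μ) ^ (n + 1) :=
    pow_le_pow_left₀ (Real.rpow_nonneg hI _) h2 _
  refine le_trans (le_of_eq ?_) h3
  rw [← Real.rpow_natCast, ← Real.rpow_natCast, ← Real.rpow_mul hI]
  congr 1
  rw [hq]
  push_cast
  field_simp

theorem key (hmp : ∀ g : G, MeasurePreserving (fun ω : Ω => g +ᵥ ω) μ μ) {ι : Type w} [Fintype ι] [Nonempty ι]
    {f : Ω → ℝ} (hf : Good f) (n : ℕ) : ∀ (u : Fin (n + 1) → ι → G) (φ : Ω → ℝ), Good φ →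
    (∫ ω, φ ω * av (fun c : ι => f ((∑ i, u i c) +ᵥ ω)) ∂μ) ^ (n + 1) ≤
      ∫ ω, φ ω ^ (n + 1) * av (fun x : Fin (n + 1) → ι => f ((∑ i, u i (x i)) +ᵥ ω)) ∂μ := by
  induction n with
  | zero =>
    intro u φ hφ
    simp only [Nat.reduceAdd, pow_one]
    apply le_of_eq
    congr 1
    funext ω
    rw [av_cons]
    congr 1
    unfold av
    simp
  | succ n ih =>
    intro u φ hφ
    -- the right hand side
    set F : Ω → ℝ := fun ω => av (fun y : Fin (n + 1) → ι => f ((∑ i, u (Fin.succ i) (y i)) +ᵥ ω)) with hF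
    have hFg : Good F := good_av fun y => good_tr hmp hf _
    set D : Ω → ℝ := fun ω => av (fun c : ι => f ((∑ i, u (Fin.succ i) c) +ᵥ ω)) with hD
    have hDg : Good D := good_av fun y => good_tr hmp hf _
    set ψ : Ω → ℝ := fun ω => φ ω ^ (n + 2) with hψ
    have hψ0 : Good ψ := hφ.pow _
    set ψ' : Ω → ℝ := fun ω => av (fun a : ι => ψ (-(u 0 a) +ᵥ ω)) with hψ'
    have hψg : Good ψ' := good_av fun y => good_tr hmp hψ0 _
    have e1 : ∫ ω, φ ω ^ (n + 1 + 1) * av (fun x : Fin (n + 1 + 1) → ι => f ((∑ i, u i (x i)) +ᵥ ω)) ∂μ =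
        ∫ ω, ψ' ω * F ω ∂μ := by
      have s1 : ∀ ω, φ ω ^ (n + 1 + 1) * av (fun x : Fin (n + 1 + 1) → ι => f ((∑ i, u i (x i)) +ᵥ ω)) =
          av (fun a : ι => ψ ω * F (u 0 a +ᵥ ω)) := by
        intro ω
        rw [av_cons, av_mul_left]
        congr 2
        funext a
        rw [hF]
        congr 1
        funext y
        rw [Fin.sum_univ_succ, Fin.cons_zero]
        simp only [Fin.cons_succ]
        rw [vadd_vadd, add_comm]
      simp_rw [s1]
      rw [integral_av (f := fun (a : ι) ω => ψ ω * F (u 0 a +ᵥ ω)) (fun a => hψ0.mul (good_tr hmp hFg _))]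
      have s2 : ∀ a, ∫ ω, ψ ω * F (u 0 a +ᵥ ω) ∂μ = ∫ ω, ψ (-(u 0 a) +ᵥ ω) * F ω ∂μ :=
        fun a => integral_swap hmp hψ0 hFg _
      simp_rw [s2]
      rw [← integral_av (f := fun (a : ι) ω => ψ (-(u 0 a) +ᵥ ω) * F ω) (fun a => (good_tr hmp hψ0 _).mul hFg)]
      congr 1
      funext ω
      rw [hψ']
      simp only
      rw [mul_comm, ← av_mul_left]
      congr 1
      funext a
      ring
    rw [e1]
    set φ' : Ω → ℝ := fun ω => ψ' ω ^ (1 / ((n : ℝ) + 1)) with hφ'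
    have hφg : Good φ' := hψg.rpow (by positivity)
    have hφp : ∀ ω, φ' ω ^ (n + 1) = ψ' ω := by
      intro ω
      rw [hφ']
      simp only
      rw [← Real.rpow_natCast, ← Real.rpow_mul (hψg.2 ω).1]
      push_cast
      rw [one_div_mul_cancel (by positivity), Real.rpow_one]
    have h1 := ih (fun i => u (Fin.succ i)) φ' hφg
    simp_rw [hφp] at h1
    refine le_trans ?_ h1
    set h : ι → Ω → ℝ := fun c ω => φ (-(u 0 c) +ᵥ ω) * f ((∑ i, u (Fin.succ i) c) +ᵥ ω) with hh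
    have hhg : ∀ c, Good (h c) := fun c => (good_tr hmp hφ _).mul (good_tr hmp hf _)
    set hb : Ω → ℝ := fun ω => av (fun c => h c ω) with hhb
    have hbg : Good hb := good_av hhg
    have e2 : ∫ ω, φ ω * av (fun c : ι => f ((∑ i, u i c) +ᵥ ω)) ∂μ = ∫ ω, hb ω ∂μ := by
      rw [hhb, integral_av hhg]
      have s1 : ∀ ω, φ ω * av (fun c : ι => f ((∑ i, u i c) +ᵥ ω)) =
          av (fun c : ι => φ ω * f ((∑ i, u i c) +ᵥ ω)) := fun ω => (av_mul_left _ _).symm
      simp_rw [s1]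
      rw [integral_av (f := fun (c : ι) ω => φ ω * f ((∑ i, u i c) +ᵥ ω)) (fun c => hφ.mul (good_tr hmp hf _))]
      congr 1
      funext c
      rw [hh]
      simp only
      have s3 := integral_swap hmp hφ (good_tr hmp hf (∑ i, u (Fin.succ i) c)) (u 0 c)
      rw [← s3]
      congr 1
      funext ω
      rw [Fin.sum_univ_succ, vadd_vadd, add_comm]
    rw [e2]
    refine root_int hbg (hφg.mul hDg) n ?_
    intro ω
    have h3 := hoelder (fun c : ι => φ (-(u 0 c) +ᵥ ω)) (fun c : ι => f ((∑ i, u (Fin.succ i) c) +ᵥ ω))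
      (fun c => (hφ.2 _).1) (fun c => hf.2 _) n
    rw [mul_pow, hφp ω]
    exact h3

/-- the average of the correlations -/
theorem total (hmp : ∀ g : G, MeasurePreserving (fun ω : Ω => g +ᵥ ω) μ μ) {ι : Type w} [Fintype ι] [Nonempty ι]
    {f : Ω → ℝ} (hf : Good f) (n : ℕ) (u : Fin (n + 2) → ι → G) (hu : ∀ c, ∑ i, u i c = 0) :
    (∫ ω, f ω ∂μ) ^ (n + 2) ≤
      av (fun x : Fin (n + 2) → ι => ∫ ω, f ω * f ((∑ i, u i (x i)) +ᵥ ω) ∂μ) := by
  set F : Ω → ℝ := fun ω => av (fun y : Fin (n + 1) → ι => f ((∑ i, u (Fin.succ i) (y i)) +ᵥ ω)) with hF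
  have hFg : Good F := good_av fun y => good_tr hmp hf _
  set D : Ω → ℝ := fun ω => av (fun c : ι => f ((∑ i, u (Fin.succ i) c) +ᵥ ω)) with hD
  have hDg : Good D := good_av fun y => good_tr hmp hf _
  have e1 : av (fun x : Fin (n + 2) → ι => ∫ ω, f ω * f ((∑ i, u i (x i)) +ᵥ ω) ∂μ) =
      ∫ ω, D ω * F ω ∂μ := by
    rw [av_cons]
    have s1 : ∀ a : ι, av (fun y : Fin (n + 1) → ι => ∫ ω, f ω * f ((∑ i, u i ((Fin.cons a y : Fin (n + 2) → ι) i)) +ᵥ ω) ∂μ) =
        ∫ ω, f ((∑ i, u (Fin.succ i) a) +ᵥ ω) * F ω ∂μ := by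
      intro a
      rw [← integral_av (f := fun (y : Fin (n + 1) → ι) ω => f ω * f ((∑ i, u i ((Fin.cons a y : Fin (n + 2) → ι) i)) +ᵥ ω))
        (fun y => hf.mul (good_tr hmp hf _))]
      have s2 : ∀ ω, av (fun y : Fin (n + 1) → ι => f ω * f ((∑ i, u i ((Fin.cons a y : Fin (n + 2) → ι) i)) +ᵥ ω)) =
          f ω * F (u 0 a +ᵥ ω) := by
        intro ω
        rw [av_mul_left, hF]
        congr 2
        funext y
        rw [Fin.sum_univ_succ, Fin.cons_zero]
        simp only [Fin.cons_succ]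
        rw [vadd_vadd, add_comm]
      simp_rw [s2]
      rw [integral_swap hmp hf hFg (u 0 a)]
      have s3 : -(u 0 a) = ∑ i, u (Fin.succ i) a := by
        have := hu a
        rw [Fin.sum_univ_succ] at this
        exact neg_eq_of_add_eq_zero_right this
      rw [s3]
    simp_rw [s1]
    rw [← integral_av (f := fun (a : ι) ω => f ((∑ i, u (Fin.succ i) a) +ᵥ ω) * F ω)
      (fun a => (good_tr hmp hf _).mul hFg)]
    congr 1
    funext ω
    rw [hD]
    simp only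
    rw [mul_comm, ← av_mul_left]
    congr 1
    funext a
    ring
  rw [e1]
  set φ : Ω → ℝ := fun ω => D ω ^ (1 / ((n : ℝ) + 1)) with hφ
  have hφg : Good φ := hDg.rpow (by positivity)
  have hφp : ∀ ω, φ ω ^ (n + 1) = D ω := by
    intro ω
    rw [hφ]
    simp only
    rw [← Real.rpow_natCast, ← Real.rpow_mul (hDg.2 ω).1]
    push_cast
    rw [one_div_mul_cancel (by positivity), Real.rpow_one]
  have h1 := key hmp hf n (fun i => u (Fin.succ i)) φ hφg
  simp_rw [hφp] at h1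
  refine le_trans ?_ h1
  have e2 : ∫ ω, f ω ∂μ = ∫ ω, D ω ∂μ := by
    rw [hD, integral_av (f := fun (c : ι) ω => f ((∑ i, u (Fin.succ i) c) +ᵥ ω)) (fun c => good_tr hmp hf _)]
    simp_rw [integral_tr hmp hf]
    rw [av_const]
  rw [e2]
  refine root_int hDg (hφg.mul hDg) n ?_
  intro ω
  rw [mul_pow, hφp ω]
  apply le_of_eq
  ring

end

end Pool.Agent.H78.CR
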