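import Mathlib
import Pool.Graph.R_pool_sql_team_seeded_ab47071d.TH891.Rec2

set_option autoImplicit false

/-! Unavoidable properties of tuples of shifts are compatible with the prime tuples conjecture. -/

namespace Pool.Agent.H78.CR

open Finset

/-- every set of at least `m` elements of `V` contains a tuple of distinct elements with the property `P` -/
def Unavoidable (k m : ℕ) (V : Finset ℕ) (P : (Fin (k + 1) → ℕ) → Prop) : Prop :=
  ∀ T ⊆ V, m ≤ T.card → ∃ x : Fin (k + 1) → ℕ, (∀ i, x i ∈ T) ∧ Function.Injective x ∧ P x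

open Classical in
theorem ramseyGood (k m : ℕ) : ∃ M : ℕ, k + 1 ≤ M ∧ ∀ V : Finset ℕ,
    (∀ p : ℕ, p ≤ 4 * k + 1 → p.Prime → ∃ r : ℕ, ∀ v ∈ V, ¬ v ≡ r [MOD p]) → M ≤ V.card →
    ∀ P : (Fin (k + 1) → ℕ) → Prop, Unavoidable k m V P →
      ∃ x : Fin (k + 1) → ℕ, (∀ i, x i ∈ V) ∧ Function.Injective x ∧
        {n : ℕ | ∀ i, (n + x i).Prime}.Infinite ∧ P x := by
  have hch : (0 : ℝ) < 1 / ((4 * k).choose k : ℝ) := by
    have : 0 < (4 * k).choose k := Nat.choose_pos (by omega)
    positivity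
  obtain ⟨n₀, hn₀⟩ := Pool.Agent.Results.MP_8923e7_nt.TupleProportion.result k
    (1 / ((4 * k).choose k : ℝ) / 2) (by positivity)
  set m' : ℕ := max (max n₀ (k + 1)) m with hm
  have hm1 : n₀ ≤ m' := (le_max_left _ _).trans (le_max_left _ _)
  have hm2 : k + 1 ≤ m' := (le_max_right _ _).trans (le_max_left _ _)
  have hm3 : m ≤ m' := le_max_right _ _
  obtain ⟨NR, hNR⟩ := Pool.Agent.Helper745.FSub.ramsey5_gen (Equiv.Perm (Fin (k + 1)) → Bool) (k + 1) m'
  refine ⟨max NR (k + 1), le_max_right _ _, ?_⟩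
  intro V hV hVcard P hP
  obtain ⟨T, hTV, hTc, b, hb⟩ := hNR V (fun l σ => decide (∃ h : l.toFinset.card = k + 1,
    P (fun i => l.toFinset.orderEmbOfFin h (σ i)))) ((le_max_left _ _).trans hVcard)
  have hcol : ∀ U : Finset ℕ, U ⊆ T → ∀ hU : U.card = k + 1, ∀ σ : Equiv.Perm (Fin (k + 1)),
      (P (fun i => U.orderEmbOfFin hU (σ i)) ↔ b σ = true) := by
    intro U hUT hUc σ
    have h1 := hb (U.sort (· ≤ ·)) (by rw [length_sort, hUc]) (Pool.Agent.TH891.Rec.sort_facts U).2.1
      (fun x hx => hUT ((mem_sort _).1 hx))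
    have h2 := congrFun h1 σ
    rw [← h2, decide_eq_true_iff]
    simp only [sort_toFinset]
    exact ⟨fun h => ⟨hUc, h⟩, fun ⟨_, h⟩ => h⟩
  have himg : ∀ x : Fin (k + 1) → ℕ, (∀ i, x i ∈ T) → Function.Injective x →
      ∃ (U : Finset ℕ) (hU : U.card = k + 1) (σ : Equiv.Perm (Fin (k + 1))), U ⊆ T ∧
        ∀ i, x i = U.orderEmbOfFin hU (σ i) := by
    intro x hx hinj
    have hUc : (univ.image x).card = k + 1 := by
      rw [card_image_of_injective _ hinj, card_univ, Fintype.card_fin]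
    have hr : ∀ i, ∃ j, (univ.image x).orderEmbOfFin hUc j = x i := by
      intro i
      have h1 : x i ∈ Set.range ((univ.image x).orderEmbOfFin hUc) := by
        rw [range_orderEmbOfFin]
        exact mem_coe.2 (mem_image_of_mem x (mem_univ i))
      exact h1
    choose j hj using hr
    have hji : Function.Injective j := by
      intro a c hac
      apply hinj
      rw [← hj a, ← hj c, hac]
    refine ⟨univ.image x, hUc, Equiv.ofBijective j (Finite.injective_iff_bijective.1 hji), ?_, ?_⟩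
    · intro y hy
      obtain ⟨i, _, rfl⟩ := mem_image.1 hy
      exact hx i
    · intro i
      exact (hj i).symm
  obtain ⟨x, hxT, hxi, hxP⟩ := hP T hTV (by omega)
  obtain ⟨U, hU, σ, hUT, hσ⟩ := himg x hxT hxi
  have hbσ : b σ = true := by
    rw [← hcol U hUT hU σ]
    have : x = fun i => U.orderEmbOfFin hU (σ i) := funext hσ
    rw [← this]
    exact hxP
  have hpt := hn₀ T (by
    intro p hp hpp
    obtain ⟨r, hr⟩ := hV p hp hpp
    exact ⟨r, fun v hv => hr v (hTV hv)⟩) (by omega)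
  have hTpos : (0 : ℝ) < T.card := by
    have : 0 < T.card := by omega
    exact_mod_cast this
  have hpos : (0 : ℝ) < (1 / ((4 * k).choose k : ℝ) - 1 / ((4 * k).choose k : ℝ) / 2) * (T.card : ℝ) ^ (k + 1) := by
    apply mul_pos (by linarith)
    positivity
  have hne : ({a : Fin (k + 1) → ℕ | (∀ i, a i ∈ T) ∧ Function.Injective a ∧
      {n : ℕ | ∀ i, (n + a i).Prime}.Infinite}).Nonempty := by
    rw [Set.nonempty_iff_ne_empty]
    intro h0
    rw [h0, Set.ncard_empty] at hpt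
    simp only [Nat.cast_zero] at hpt
    linarith
  obtain ⟨c, hcT, hci, hcP⟩ := hne
  obtain ⟨W, hW, τ, hWT, hτ⟩ := himg c hcT hci
  refine ⟨fun i => W.orderEmbOfFin hW (σ i), ?_, ?_, ?_, ?_⟩
  · intro i
    exact hTV (hWT (orderEmbOfFin_mem W hW _))
  · intro a d had
    exact σ.injective ((W.orderEmbOfFin hW).injective had)
  · refine hcP.mono ?_
    intro n hn i
    have h1 := hn (τ.symm (σ i))
    rw [hτ, Equiv.apply_symm_apply] at h1
    exact h1
  · rw [hcol W hWT hW σ]
    exact hbσ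

open Classical in
/-- a positive proportion of all tuples -/
theorem ramseyCount (k m : ℕ) : ∃ (M : ℕ) (c : ℝ), 0 < c ∧ ∀ V : Finset ℕ,
    (∀ p : ℕ, p ≤ 4 * k + 1 → p.Prime → ∃ r : ℕ, ∀ v ∈ V, ¬ v ≡ r [MOD p]) → M ≤ V.card →
    ∀ P : (Fin (k + 1) → ℕ) → Prop, Unavoidable k m V P →
      c * (V.card : ℝ) ^ (k + 1) ≤ ({x : Fin (k + 1) → ℕ | (∀ i, x i ∈ V) ∧ Function.Injective x ∧
        {n : ℕ | ∀ i, (n + x i).Prime}.Infinite ∧ P x}.ncard : ℝ) := by
  obtain ⟨M, hkM, hM⟩ := ramseyGood k m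
  have hMc : 0 < M.choose (k + 1) := Nat.choose_pos hkM
  have hMc' : (0 : ℝ) < M.choose (k + 1) := by exact_mod_cast hMc
  have hf0 : (0 : ℝ) < (k + 1).factorial := by exact_mod_cast (k + 1).factorial_pos
  refine ⟨max M (2 * (k + 1)), 1 / (2 ^ (k + 1) * (k + 1).factorial * M.choose (k + 1)), by positivity, ?_⟩
  intro V hV hVc P hP
  have hVM : M ≤ V.card := (le_max_left _ _).trans hVc
  have hV2 : 2 * (k + 1) ≤ V.card := (le_max_right _ _).trans hVc
  set G := (Fintype.piFinset (fun _ : Fin (k + 1) => V)).filter (fun a => Function.Injective a ∧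
    {n : ℕ | ∀ i, (n + a i).Prime}.Infinite ∧ P a) with hG
  have hGset : {x : Fin (k + 1) → ℕ | (∀ i, x i ∈ V) ∧ Function.Injective x ∧
        {n : ℕ | ∀ i, (n + x i).Prime}.Infinite ∧ P x} = (G : Set (Fin (k + 1) → ℕ)) := by
    ext a
    rw [hG, coe_filter, Set.mem_ofPred_eq, Set.mem_ofPred_eq, Fintype.mem_piFinset]
  rw [hGset, Set.ncard_coe_finset]
  set F := G.image (fun x => univ.image x) with hF
  have hss := Pool.Agent.TH891.Rec.supersat V F (k + 1) M (by
      intro T hT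
      rw [hF, mem_image] at hT
      obtain ⟨x, hx, rfl⟩ := hT
      rw [hG, mem_filter, Fintype.mem_piFinset] at hx
      refine ⟨?_, ?_⟩
      · intro y hy
        obtain ⟨i, _, rfl⟩ := mem_image.1 hy
        exact hx.1 i
      · rw [card_image_of_injective _ hx.2.1, card_univ, Fintype.card_fin]) hkM hVM (by
      intro S hS
      rw [mem_powersetCard] at hS
      obtain ⟨x, hxS, hxi, h1, h2⟩ := hM S (by
        intro p hp hpp
        obtain ⟨r, hr⟩ := hV p hp hpp
        exact ⟨r, fun v hv => hr v (hS.1 hv)⟩) hS.2.ge P (fun T hT hTc => hP T (hT.trans hS.1) hTc)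
      refine ⟨univ.image x, ?_, ?_⟩
      · rw [hF, mem_image]
        refine ⟨x, ?_, rfl⟩
        rw [hG, mem_filter, Fintype.mem_piFinset]
        exact ⟨fun i => hS.1 (hxS i), hxi, h1, h2⟩
      · intro y hy
        obtain ⟨i, _, rfl⟩ := mem_image.1 hy
        exact hxS i)
  have hFG : F.card ≤ G.card := card_image_le
  have hlow := Pool.Agent.TH891.Rec.choose_low V.card (k + 1) hV2
  have h1 : (V.card.choose (k + 1) : ℝ) ≤ (G.card : ℝ) * M.choose (k + 1) := by
    have h2 : V.card.choose (k + 1) ≤ G.card * M.choose (k + 1) := hss.trans (Nat.mul_le_mul_right _ hFG)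
    exact_mod_cast h2
  have h3 := hlow.trans h1
  rw [div_pow, div_div, div_le_iff₀ (by positivity)] at h3
  rw [one_div_mul_eq_div, div_le_iff₀ (by positivity)]
  calc (V.card : ℝ) ^ (k + 1) ≤ (G.card : ℝ) * (M.choose (k + 1)) * (2 ^ (k + 1) * ((k + 1).factorial : ℝ)) := h3
    _ = _ := by ring

end Pool.Agent.H78.CR
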