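import Mathlib
import Pool.Agent.H78.CR.Ineq
import Pool.Agent.H78.CR.Ram

set_option autoImplicit false

/-! Recurrence of measure preserving actions of abelian groups along good tuples. -/

namespace Pool.Agent.H78.CR

open Finset MeasureTheory

universe u v

section

variable {Ω : Type u} [MeasurableSpace Ω] {μ : Measure Ω} [IsProbabilityMeasure μ]
variable {G : Type v} [AddCommGroup G] [AddAction G Ω]

open Classical in
/-- a tuple of distinct elements with a large correlation -/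
theorem exists_tuple (hmp : ∀ g : G, MeasurePreserving (fun ω : Ω => g +ᵥ ω) μ μ)
    {f : Ω → ℝ} (hf : Good f) (n : ℕ) (T : Finset ℕ) (g : Fin (n + 2) → ℕ → G) (hg : ∀ v ∈ T, ∑ i, g i v = 0)
    {ε : ℝ} (hT : ((n : ℝ) + 2) ^ 2 < ε * T.card) (hT2 : n + 2 ≤ T.card) :
    ∃ x : Fin (n + 2) → ℕ, (∀ i, x i ∈ T) ∧ Function.Injective x ∧
      (∫ ω, f ω ∂μ) ^ (n + 2) - ε ≤ ∫ ω, f ω * f ((∑ i, g i (x i)) +ᵥ ω) ∂μ := by
  have hne : Nonempty T := by
    have : 0 < T.card := by omega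
    obtain ⟨t, ht⟩ := card_pos.1 this
    exact ⟨⟨t, ht⟩⟩
  have hT0 : (0 : ℝ) < T.card := by
    have : 0 < T.card := by omega
    exact_mod_cast this
  by_contra hcon
  push Not at hcon
  have h1 := total hmp (ι := T) hf n (fun i c => g i c) (fun c => hg c c.2)
  set I := (∫ ω, f ω ∂μ) ^ (n + 2) with hI
  have hI0 : 0 ≤ I := pow_nonneg (integral_nonneg fun ω => (hf.2 ω).1) _
  set c : (Fin (n + 2) → T) → ℝ := fun x => ∫ ω, f ω * f ((∑ i, g i (x i)) +ᵥ ω) ∂μ with hc
  have hc1 : ∀ x, c x ≤ 1 := by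
    intro x
    have hgd : Good (fun ω => f ω * f ((∑ i, g i (x i)) +ᵥ ω)) := hf.mul (good_tr hmp hf _)
    calc c x ≤ ∫ _ω : Ω, (1 : ℝ) ∂μ := integral_mono hgd.int (integrable_const _) (fun ω => (hgd.2 ω).2)
      _ = 1 := by simp
  have hε0 : 0 < ε := by
    by_contra h
    push Not at h
    have : ε * (T.card : ℝ) ≤ 0 := mul_nonpos_of_nonpos_of_nonneg h hT0.le
    have h2 : (0 : ℝ) ≤ ((n : ℝ) + 2) ^ 2 := by positivity
    linarith
  have hcI : ∀ x, c x ≤ (I - ε) + (if Function.Injective x then 0 else 1) := by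
    intro x
    split_ifs with h
    · rw [add_zero]
      exact (hcon (fun i => (x i : ℕ)) (fun i => (x i).2) (fun a b hab => h (Subtype.ext hab))).le
    · have h2 : (0 : ℝ) ≤ I - ε := by
        by_contra h3
        push Not at h3
        -- the average of an injective tuple is nonnegative
        obtain ⟨e, he⟩ : ∃ e : Fin (n + 2) → ℕ, (∀ i, e i ∈ T) ∧ Function.Injective e := by
          obtain ⟨U, hUT, hU⟩ := exists_subset_card_eq hT2
          exact ⟨fun i => U.orderEmbOfFin hU i, fun i => hUT (orderEmbOfFin_mem U hU i),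
            (U.orderEmbOfFin hU).injective⟩
        have h4 := hcon e he.1 he.2
        have h5 : 0 ≤ ∫ ω, f ω * f ((∑ i, g i (e i)) +ᵥ ω) ∂μ :=
          integral_nonneg fun ω => mul_nonneg (hf.2 _).1 (hf.2 _).1
        linarith
      linarith [hc1 x]
  have h2 : av c ≤ (I - ε) + ((univ.filter (fun x : Fin (n + 2) → T => ¬ Function.Injective x)).card : ℝ) /
      (Fintype.card (Fin (n + 2) → T) : ℝ) := by
    have hN : (0 : ℝ) < Fintype.card (Fin (n + 2) → T) := by exact_mod_cast Fintype.card_pos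
    refine (av_mono hcI).trans (le_of_eq ?_)
    unfold av
    rw [sum_add_distrib, add_div, sum_const, nsmul_eq_mul, card_univ, mul_div_assoc, mul_div_cancel₀ _ hN.ne']
    congr 2
    rw [← sum_filter_add_sum_filter_not univ (fun x : Fin (n + 2) → T => Function.Injective x)]
    rw [sum_eq_zero (s := univ.filter (fun x : Fin (n + 2) → T => Function.Injective x)) (by
      intro x hx
      rw [if_pos (mem_filter.1 hx).2]), zero_add, sum_congr rfl (g := fun _ => (1 : ℝ)) (by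
      intro x hx
      rw [if_neg (mem_filter.1 hx).2]), sum_const, nsmul_eq_mul, mul_one]
  have h3 : ((univ.filter (fun x : Fin (n + 2) → T => ¬ Function.Injective x)).card : ℝ) ≤
      ((n : ℝ) + 2) ^ 2 * (T.card : ℝ) ^ (n + 1) := by
    have h4 := Pool.Agent.TH891.Rec.card_noninj (n + 1) T
    have h5 : (univ.filter (fun x : Fin (n + 2) → T => ¬ Function.Injective x)).card ≤
        ((Fintype.piFinset (fun _ : Fin (n + 1 + 1) => T)).filter (fun a => ¬ Function.Injective a)).card := by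
      apply card_le_card_of_injOn (fun x i => (x i : ℕ))
      · intro x hx
        rw [mem_coe, mem_filter] at hx
        rw [mem_coe, mem_filter, Fintype.mem_piFinset]
        refine ⟨fun i => (x i).2, fun h => hx.2 ?_⟩
        intro a b hab
        exact h (by simp only [hab])
      · intro x _ y _ hxy
        funext i
        exact Subtype.ext (congrFun hxy i)
    have h6 := h5.trans h4
    have h7 : ((univ.filter (fun x : Fin (n + 2) → T => ¬ Function.Injective x)).card : ℝ) ≤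
      (((n + 1 + 1) ^ 2 * T.card ^ (n + 1) : ℕ) : ℝ) := by exact_mod_cast h6
    refine h7.trans (le_of_eq ?_)
    push_cast
    ring
  have h4 : (Fintype.card (Fin (n + 2) → T) : ℝ) = (T.card : ℝ) ^ (n + 2) := by
    rw [Fintype.card_fun, Fintype.card_fin, Fintype.card_coe]
    push_cast
    rfl
  rw [h4] at h2
  have h5 : ((univ.filter (fun x : Fin (n + 2) → T => ¬ Function.Injective x)).card : ℝ) / (T.card : ℝ) ^ (n + 2) <
      ε := by
    rw [div_lt_iff₀ (by positivity)]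
    refine h3.trans_lt ?_
    calc ((n : ℝ) + 2) ^ 2 * (T.card : ℝ) ^ (n + 1) < (ε * T.card) * (T.card : ℝ) ^ (n + 1) :=
          mul_lt_mul_of_pos_right hT (by positivity)
      _ = ε * (T.card : ℝ) ^ (n + 2) := by ring
  have h6 : I ≤ av c := h1
  linarith

end

/-- **recurrence along good tuples** -/
theorem recurrence (k : ℕ) (hk : 1 ≤ k) (ε : ℝ) (hε : 0 < ε) : ∃ (M : ℕ) (c : ℝ), 0 < c ∧ ∀ V : Finset ℕ,
    (∀ p : ℕ, p ≤ 4 * k + 1 → p.Prime → ∃ r : ℕ, ∀ v ∈ V, ¬ v ≡ r [MOD p]) → M ≤ V.card →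
    ∀ (G : Type v) [AddCommGroup G] (Ω : Type u) [MeasurableSpace Ω] [AddAction G Ω] (μ : Measure Ω)
      [IsProbabilityMeasure μ], (∀ g : G, MeasurePreserving (fun ω : Ω => g +ᵥ ω) μ μ) →
    ∀ f : Ω → ℝ, Measurable f → (∀ ω, 0 ≤ f ω ∧ f ω ≤ 1) →
    ∀ g : Fin (k + 1) → ℕ → G, (∀ v ∈ V, ∑ i, g i v = 0) →
      c * (V.card : ℝ) ^ (k + 1) ≤ ({x : Fin (k + 1) → ℕ | (∀ i, x i ∈ V) ∧ Function.Injective x ∧
        {n : ℕ | ∀ i, (n + x i).Prime}.Infinite ∧
        (∫ ω, f ω ∂μ) ^ (k + 1) - ε ≤ ∫ ω, f ω * f ((∑ i, g i (x i)) +ᵥ ω) ∂μ}.ncard : ℝ) := by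
  obtain ⟨n, rfl⟩ : ∃ n, k = n + 1 := ⟨k - 1, by omega⟩
  obtain ⟨M, c, hc, h⟩ := ramseyCount (n + 1) (max (⌊((n : ℝ) + 2) ^ 2 / ε⌋₊ + 1) (n + 2))
  refine ⟨M, c, hc, ?_⟩
  intro V hV hM G _ Ω _ _ μ _ hmp f hfm hf g hg
  refine h V hV hM _ ?_
  intro T hTV hT
  refine exists_tuple hmp ⟨hfm, hf⟩ n T g (fun v hv => hg v (hTV hv)) ?_ ((le_max_right _ _).trans hT)
  have h1 : ⌊((n : ℝ) + 2) ^ 2 / ε⌋₊ + 1 ≤ T.card := (le_max_left _ _).trans hT
  have h2 := Nat.lt_floor_add_one (((n : ℝ) + 2) ^ 2 / ε)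
  have h3 : ((n : ℝ) + 2) ^ 2 / ε < T.card := lt_of_lt_of_le h2 (by exact_mod_cast h1)
  rw [div_lt_iff₀ hε] at h3
  linarith

end Pool.Agent.H78.CR
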