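import Mathlib
import Pool.Agent.H78.CR.Rec

set_option autoImplicit false

/-! The version for dense sets of integer vectors. -/

namespace Pool.Agent.H78.CR

open Finset MeasureTheory

section unif

variable (Ω : Type) [Fintype Ω] [MeasurableSpace Ω] [MeasurableSingletonClass Ω]

/-- the uniform probability measure -/
noncomputable def unif : Measure Ω := ((Fintype.card Ω : ENNReal))⁻¹ • Measure.count

lemma unif_prob [Nonempty Ω] : IsProbabilityMeasure (unif Ω) := by
  constructor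
  unfold unif
  rw [Measure.smul_apply, Measure.count_univ, smul_eq_mul, ENat.card_eq_coe_fintype_card]
  apply ENNReal.inv_mul_cancel
  · simp
  · simp

lemma unif_mp (e : Ω → Ω) (he : Function.Bijective e) : MeasurePreserving e (unif Ω) (unif Ω) := by
  have hm : Measurable e := measurable_of_finite e
  refine ⟨hm, ?_⟩
  unfold unif
  rw [Measure.map_smul]
  congr 1
  ext s hs
  rw [Measure.map_apply hm hs, Measure.count_apply (hm hs), Measure.count_apply hs]
  congr 1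
  exact Set.encard_preimage_of_bijective he s

lemma unif_int (F : Ω → ℝ) : ∫ ω, F ω ∂(unif Ω) = (∑ ω, F ω) / Fintype.card Ω := by
  unfold unif
  rw [integral_smul_measure, integral_count, ENNReal.toReal_inv, ENNReal.toReal_natCast, smul_eq_mul,
    inv_mul_eq_div]

end unif

/-- the discrete torus -/
def Tor (d N : ℕ) : Type := Fin d → ZMod N

instance (d N : ℕ) : MeasurableSpace (Tor d N) := ⊤

instance (d N : ℕ) : MeasurableSingletonClass (Tor d N) := ⟨fun _ => trivial⟩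

instance (d N : ℕ) [NeZero N] : Fintype (Tor d N) := by unfold Tor; infer_instance

instance (d N : ℕ) : AddAction (Fin d → ℤ) (Tor d N) where
  vadd a ω := fun i => (a i : ZMod N) + ω i
  zero_vadd ω := by
    funext i
    show (((0 : Fin d → ℤ) i : ℤ) : ZMod N) + ω i = ω i
    simp
  add_vadd a b ω := by
    funext i
    show (((a + b) i : ℤ) : ZMod N) + ω i = (a i : ZMod N) + ((b i : ZMod N) + ω i)
    rw [Pi.add_apply]
    push_cast
    ring

lemma tor_card (d N : ℕ) [NeZero N] : Fintype.card (Tor d N) = N ^ d := by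
  have : Fintype.card (Tor d N) = Fintype.card (Fin d → ZMod N) := Fintype.card_congr (Equiv.refl _)
  rw [this, Fintype.card_fun, ZMod.card, Fintype.card_fin]

/-- the cube with corner `b` and side `N` -/
def cube {d : ℕ} (b : Fin d → ℤ) (N : ℕ) : Set (Fin d → ℤ) := {a | ∀ i, b i ≤ a i ∧ a i < b i + N}

/-- `A` has density at least `δ` in arbitrarily large cubes -/
def DenseIn {d : ℕ} (A : Set (Fin d → ℤ)) (δ : ℝ) : Prop :=
  ∀ N₀ : ℕ, ∃ N ≥ N₀, ∃ b : Fin d → ℤ, δ * (N : ℝ) ^ d ≤ ((A ∩ cube b N).ncard : ℝ)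

lemma cube_finite {d : ℕ} (b : Fin d → ℤ) (N : ℕ) : (cube b N).Finite := by
  have : cube b N ⊆ ((Fintype.piFinset fun i => Finset.Ico (b i) (b i + N) : Finset (Fin d → ℤ)) : Set (Fin d → ℤ)) := by
    intro a ha
    rw [mem_coe, Fintype.mem_piFinset]
    intro i
    rw [Finset.mem_Ico]
    exact ha i
  exact (finite_toSet _).subset this

/-- the lift of a point of the torus to the cube -/
def lift {d N : ℕ} (b : Fin d → ℤ) (ω : Tor d N) : Fin d → ℤ := fun i => b i + ((ω i).val : ℤ)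

lemma lift_mem {d N : ℕ} [NeZero N] (b : Fin d → ℤ) (ω : Tor d N) : lift b ω ∈ cube b N := by
  intro i
  unfold lift
  have := ZMod.val_lt (ω i)
  constructor
  · omega
  · have h : ((ω i).val : ℤ) < N := by exact_mod_cast this
    linarith

lemma lift_inj {d N : ℕ} [NeZero N] (b : Fin d → ℤ) : Function.Injective (lift (d := d) (N := N) b) := by
  intro ω ω' h
  funext i
  have h1 := congrFun h i
  unfold lift at h1
  have h2 : (ω i).val = (ω' i).val := by
    have : ((ω i).val : ℤ) = ((ω' i).val : ℤ) := by linarith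
    exact_mod_cast this
  exact ZMod.val_injective N h2

lemma lift_surj {d N : ℕ} [NeZero N] (b : Fin d → ℤ) (a : Fin d → ℤ) (ha : a ∈ cube b N) :
    ∃ ω : Tor d N, lift b ω = a := by
  refine ⟨fun i => (((a i - b i).toNat : ℕ) : ZMod N), ?_⟩
  funext i
  unfold lift
  obtain ⟨h1, h2⟩ := ha i
  have h3 : (a i - b i).toNat < N := by omega
  rw [ZMod.val_natCast, Nat.mod_eq_of_lt h3, Int.toNat_of_nonneg (by linarith)]
  ring

open Classical in
lemma card_lift {d N : ℕ} [NeZero N] (b : Fin d → ℤ) (A : Set (Fin d → ℤ)) :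
    ((univ : Finset (Tor d N)).filter (fun ω => lift b ω ∈ A)).card = (A ∩ cube b N).ncard := by
  rw [← Set.ncard_coe_finset]
  apply Set.ncard_congr (fun ω _ => lift b ω)
  · intro ω hω
    rw [mem_coe, mem_filter] at hω
    exact ⟨hω.2, lift_mem b ω⟩
  · intro ω ω' _ _ h
    exact lift_inj b h
  · intro a ha
    obtain ⟨ω, rfl⟩ := lift_surj (N := N) b a ha.2
    refine ⟨ω, ?_, rfl⟩
    rw [mem_coe, mem_filter]
    exact ⟨mem_univ _, ha.1⟩

/-- adding a vector without leaving the cube -/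
lemma lift_add {d N : ℕ} [NeZero N] (b w : Fin d → ℤ) (ω : Tor d N)
    (h : ∀ i, 0 ≤ w i + ((ω i).val : ℤ) ∧ w i + ((ω i).val : ℤ) < N) : lift b (w +ᵥ ω) = lift b ω + w := by
  funext i
  unfold lift
  rw [Pi.add_apply]
  have h1 : (w +ᵥ ω) i = (((w i + ((ω i).val : ℤ)).toNat : ℕ) : ZMod N) := by
    show (w i : ZMod N) + ω i = _
    have h2 : (((w i + ((ω i).val : ℤ)).toNat : ℕ) : ZMod N) = ((((w i + ((ω i).val : ℤ)).toNat : ℕ) : ℤ) : ZMod N) := by
      push_cast
      rfl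
    rw [h2, Int.toNat_of_nonneg (h i).1]
    push_cast
    rw [ZMod.natCast_zmod_val]
  rw [h1, ZMod.val_natCast, Nat.mod_eq_of_lt (by have := (h i).1; have := (h i).2; omega),
    Int.toNat_of_nonneg (h i).1]
  ring

open Classical in
lemma card_bad {d N : ℕ} [NeZero N] (w : Fin d → ℤ) :
    (((univ : Finset (Tor d N)).filter (fun ω => ¬ ∀ i, 0 ≤ w i + ((ω i).val : ℤ) ∧ w i + ((ω i).val : ℤ) < N)).card : ℝ) * N ≤
      (∑ i, |(w i : ℝ)|) * (N : ℝ) ^ d := by
  have hsub : (univ : Finset (Tor d N)).filter (fun ω => ¬ ∀ i, 0 ≤ w i + ((ω i).val : ℤ) ∧ w i + ((ω i).val : ℤ) < N) ⊆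
      univ.biUnion (fun i => (univ : Finset (Tor d N)).filter (fun ω => ¬ (0 ≤ w i + ((ω i).val : ℤ) ∧ w i + ((ω i).val : ℤ) < N))) := by
    intro ω hω
    rw [mem_filter] at hω
    obtain ⟨i, hi⟩ := not_forall.1 hω.2
    rw [mem_biUnion]
    exact ⟨i, mem_univ _, by rw [mem_filter]; exact ⟨mem_univ _, hi⟩⟩
  have hone : ∀ i, (((univ : Finset (Tor d N)).filter (fun ω => ¬ (0 ≤ w i + ((ω i).val : ℤ) ∧ w i + ((ω i).val : ℤ) < N))).card) * N ≤
      (w i).natAbs * N ^ d := by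
    intro i
    set B : Finset (ZMod N) := univ.filter (fun z => ¬ (0 ≤ w i + (z.val : ℤ) ∧ w i + (z.val : ℤ) < N)) with hB
    have hBc : B.card ≤ (w i).natAbs := by
      -- the map `z ↦ z.val` or `N - 1 - z.val` into `range |w i|`
      rw [← card_range (w i).natAbs]
      by_cases hw : 0 ≤ w i
      · apply card_le_card_of_injOn (fun z => N - 1 - z.val)
        · intro z hz
          rw [hB, mem_coe, mem_filter] at hz
          have hz2 := hz.2
          have hlt := ZMod.val_lt z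
          rw [mem_coe, mem_range]
          show N - 1 - z.val < (w i).natAbs
          by_contra hc
          apply hz2
          constructor
          · omega
          · omega
        · intro z _ z' _ h
          have h1 : N - 1 - z.val = N - 1 - z'.val := h
          have := ZMod.val_lt z
          have := ZMod.val_lt z'
          apply ZMod.val_injective N
          omega
      · apply card_le_card_of_injOn (fun z => z.val)
        · intro z hz
          rw [hB, mem_coe, mem_filter] at hz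
          have hz2 := hz.2
          have hlt := ZMod.val_lt z
          rw [mem_coe, mem_range]
          show z.val < (w i).natAbs
          by_contra hc
          apply hz2
          constructor
          · omega
          · omega
        · intro z _ z' _ h
          exact ZMod.val_injective N h
    have hle : ((univ : Finset (Tor d N)).filter (fun ω => ¬ (0 ≤ w i + ((ω i).val : ℤ) ∧ w i + ((ω i).val : ℤ) < N))).card ≤
        (Fintype.piFinset (fun j : Fin d => if j = i then B else univ)).card := by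
      apply card_le_card_of_injOn (fun ω j => ω j)
      · intro ω hω
        rw [mem_coe, mem_filter] at hω
        rw [mem_coe, Fintype.mem_piFinset]
        intro j
        by_cases hj : j = i
        · subst hj
          rw [if_pos rfl, hB, mem_filter]
          exact ⟨mem_univ _, hω.2⟩
        · rw [if_neg hj]
          exact mem_univ _
      · intro ω _ ω' _ h
        exact h
    have hcard : (Fintype.piFinset (fun j : Fin d => if j = i then B else univ)).card = B.card * N ^ (d - 1) := by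
      rw [Fintype.card_piFinset, ← mul_prod_erase univ _ (mem_univ i), if_pos rfl]
      congr 1
      rw [prod_congr rfl (g := fun _ => N) (by
        intro j hj
        rw [if_neg (ne_of_mem_erase hj), card_univ, ZMod.card]), prod_const, card_erase_of_mem (mem_univ i),
        card_univ, Fintype.card_fin]
    have hd : 1 ≤ d := by
      have := i.2
      omega
    calc _ ≤ (B.card * N ^ (d - 1)) * N := Nat.mul_le_mul_right _ (hle.trans hcard.le)
      _ = B.card * N ^ d := by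
          rw [mul_assoc, ← pow_succ, Nat.sub_add_cancel hd]
      _ ≤ _ := Nat.mul_le_mul_right _ hBc
  have h1 : ((univ : Finset (Tor d N)).filter (fun ω => ¬ ∀ i, 0 ≤ w i + ((ω i).val : ℤ) ∧ w i + ((ω i).val : ℤ) < N)).card * N ≤
      (∑ i, (w i).natAbs) * N ^ d := by
    calc _ ≤ (∑ i, ((univ : Finset (Tor d N)).filter (fun ω => ¬ (0 ≤ w i + ((ω i).val : ℤ) ∧ w i + ((ω i).val : ℤ) < N))).card) * N :=
          Nat.mul_le_mul_right _ ((card_le_card hsub).trans card_biUnion_le)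
      _ ≤ ∑ i, (w i).natAbs * N ^ d := by
          rw [sum_mul]
          exact sum_le_sum fun i _ => hone i
      _ = _ := by rw [sum_mul]
  have h2 : ((((univ : Finset (Tor d N)).filter (fun ω => ¬ ∀ i, 0 ≤ w i + ((ω i).val : ℤ) ∧ w i + ((ω i).val : ℤ) < N)).card * N : ℕ) : ℝ) ≤
      (((∑ i, (w i).natAbs) * N ^ d : ℕ) : ℝ) := by exact_mod_cast h1
  push_cast at h2
  refine h2.trans (le_of_eq ?_)
  congr 1
  refine sum_congr rfl fun i _ => ?_
  rw [Nat.cast_natAbs]
  push_cast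
  rfl

open Classical in
/-- from the torus to the cube -/
lemma transfer {d N : ℕ} [NeZero N] (A : Set (Fin d → ℤ)) (b w : Fin d → ℤ) :
    (((univ : Finset (Tor d N)).filter (fun ω => lift b ω ∈ A ∧ lift b (w +ᵥ ω) ∈ A)).card : ℝ) * N ≤
      (({a | a ∈ A ∧ a + w ∈ A} ∩ cube b N).ncard : ℝ) * N + (∑ i, |(w i : ℝ)|) * (N : ℝ) ^ d := by
  have h1 : (univ : Finset (Tor d N)).filter (fun ω => lift b ω ∈ A ∧ lift b (w +ᵥ ω) ∈ A) ⊆
      (univ : Finset (Tor d N)).filter (fun ω => lift b ω ∈ {a | a ∈ A ∧ a + w ∈ A}) ∪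
      (univ : Finset (Tor d N)).filter (fun ω => ¬ ∀ i, 0 ≤ w i + ((ω i).val : ℤ) ∧ w i + ((ω i).val : ℤ) < N) := by
    intro ω hω
    rw [mem_filter] at hω
    rw [mem_union, mem_filter, mem_filter]
    by_cases h : ∀ i, 0 ≤ w i + ((ω i).val : ℤ) ∧ w i + ((ω i).val : ℤ) < N
    · left
      refine ⟨mem_univ _, hω.2.1, ?_⟩
      rw [← lift_add b w ω h]
      exact hω.2.2
    · right
      exact ⟨mem_univ _, h⟩
  have h2 := (card_le_card h1).trans (card_union_le _ _)
  have hcl : ((univ : Finset (Tor d N)).filter (fun ω => lift b ω ∈ {a | a ∈ A ∧ a + w ∈ A})).card =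
      ({a | a ∈ A ∧ a + w ∈ A} ∩ cube b N).ncard := by
    rw [← card_lift b {a | a ∈ A ∧ a + w ∈ A}]
    congr!
  rw [hcl] at h2
  have h3 : (((univ : Finset (Tor d N)).filter (fun ω => lift b ω ∈ A ∧ lift b (w +ᵥ ω) ∈ A)).card : ℝ) ≤
      (({a | a ∈ A ∧ a + w ∈ A} ∩ cube b N).ncard : ℝ) +
      (((univ : Finset (Tor d N)).filter (fun ω => ¬ ∀ i, 0 ≤ w i + ((ω i).val : ℤ) ∧ w i + ((ω i).val : ℤ) < N)).card : ℝ) := by
    exact_mod_cast h2
  have h4 := mul_le_mul_of_nonneg_right h3 (Nat.cast_nonneg N : (0:ℝ) ≤ N)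
  have h5 := card_bad (N := N) w
  rw [add_mul] at h4
  linarith

open Classical in
/-- **the version for dense sets of integer vectors** -/
theorem combinatorial (k : ℕ) (hk : 1 ≤ k) (ε : ℝ) (hε : 0 < ε) : ∃ (M : ℕ) (c : ℝ), 0 < c ∧ ∀ V : Finset ℕ,
    (∀ p : ℕ, p ≤ 4 * k + 1 → p.Prime → ∃ r : ℕ, ∀ v ∈ V, ¬ v ≡ r [MOD p]) → M ≤ V.card →
    ∀ (d : ℕ) (A : Set (Fin d → ℤ)) (δ : ℝ), 0 ≤ δ → DenseIn A δ →
    ∀ g : Fin (k + 1) → ℕ → (Fin d → ℤ), (∀ v ∈ V, ∑ i, g i v = 0) →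
      c * (V.card : ℝ) ^ (k + 1) ≤ ({x : Fin (k + 1) → ℕ | (∀ i, x i ∈ V) ∧ Function.Injective x ∧
        {n : ℕ | ∀ i, (n + x i).Prime}.Infinite ∧
        DenseIn {a | a ∈ A ∧ a + ∑ i, g i (x i) ∈ A} (δ ^ (k + 1) - ε)}.ncard : ℝ) := by
  obtain ⟨M, c, hc, h⟩ := recurrence.{0, 0} k hk (ε / 2) (by positivity)
  refine ⟨M, c, hc, ?_⟩
  intro V hV hM d A δ hδ hA g hg
  -- for every `N₀` a scale and a set of tuples
  have hstep : ∀ N₀ : ℕ, ∃ N ≥ N₀, ∃ b : Fin d → ℤ, ∃ S : Finset (Fin (k + 1) → ℕ),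
      S ⊆ Fintype.piFinset (fun _ => V) ∧ c * (V.card : ℝ) ^ (k + 1) ≤ (S.card : ℝ) ∧
      ∀ x ∈ S, Function.Injective x ∧ {n : ℕ | ∀ i, (n + x i).Prime}.Infinite ∧
        (δ ^ (k + 1) - ε / 2) * (N : ℝ) ^ d * N ≤
          (({a | a ∈ A ∧ a + ∑ i, g i (x i) ∈ A} ∩ cube b N).ncard : ℝ) * N +
            (∑ j, |(((∑ i, g i (x i)) j : ℤ) : ℝ)|) * (N : ℝ) ^ d := by
    intro N₀
    obtain ⟨N, hN, b, hb⟩ := hA (max N₀ 1)
    have hN1 : 1 ≤ N := (le_max_right _ _).trans hN
    have : NeZero N := ⟨by omega⟩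
    have hNR : (0 : ℝ) < N := by exact_mod_cast hN1
    have : Nonempty (Tor d N) := ⟨fun _ => 0⟩
    have := unif_prob (Tor d N)
    set f : Tor d N → ℝ := fun ω => if lift b ω ∈ A then 1 else 0 with hf
    have hfi : ∫ ω, f ω ∂(unif (Tor d N)) = ((A ∩ cube b N).ncard : ℝ) / (N : ℝ) ^ d := by
      rw [unif_int, tor_card]
      push_cast
      congr 1
      rw [hf, sum_boole, card_lift]
    have hδf : δ ≤ ∫ ω, f ω ∂(unif (Tor d N)) := by
      rw [hfi, le_div_iff₀ (by positivity)]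
      exact hb
    have h1 := h V hV hM (Fin d → ℤ) (Tor d N) (unif (Tor d N)) (fun a => unif_mp _ _ (AddAction.bijective a)) f
      (fun _ _ => trivial) (fun ω => by simp only [hf]; split_ifs <;> norm_num) g hg
    set S : Finset (Fin (k + 1) → ℕ) := (Fintype.piFinset (fun _ => V)).filter (fun x => Function.Injective x ∧
        {n : ℕ | ∀ i, (n + x i).Prime}.Infinite ∧
        (∫ ω, f ω ∂(unif (Tor d N))) ^ (k + 1) - ε / 2 ≤
          ∫ ω, f ω * f ((∑ i, g i (x i)) +ᵥ ω) ∂(unif (Tor d N))) with hS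
    have hSset : {x : Fin (k + 1) → ℕ | (∀ i, x i ∈ V) ∧ Function.Injective x ∧
        {n : ℕ | ∀ i, (n + x i).Prime}.Infinite ∧
        (∫ ω, f ω ∂(unif (Tor d N))) ^ (k + 1) - ε / 2 ≤
          ∫ ω, f ω * f ((∑ i, g i (x i)) +ᵥ ω) ∂(unif (Tor d N))} = (S : Set (Fin (k + 1) → ℕ)) := by
      ext a
      rw [hS, coe_filter, Set.mem_ofPred_eq, Set.mem_ofPred_eq, Fintype.mem_piFinset]
    rw [hSset, Set.ncard_coe_finset] at h1
    refine ⟨N, (le_max_left _ _).trans hN, b, S, filter_subset _ _, h1, ?_⟩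
    intro x hx
    rw [hS, mem_filter] at hx
    obtain ⟨_, hx1, hx2, hx3⟩ := hx
    refine ⟨hx1, hx2, ?_⟩
    have hcorr : ∫ ω, f ω * f ((∑ i, g i (x i)) +ᵥ ω) ∂(unif (Tor d N)) =
        (((univ : Finset (Tor d N)).filter (fun ω => lift b ω ∈ A ∧ lift b ((∑ i, g i (x i)) +ᵥ ω) ∈ A)).card : ℝ) /
          (N : ℝ) ^ d := by
      rw [unif_int, tor_card]
      push_cast
      congr 1
      rw [← sum_boole]
      refine sum_congr rfl fun ω _ => ?_
      simp only [hf]
      by_cases c1 : lift b ω ∈ A <;> by_cases c2 : lift b ((∑ i, g i (x i)) +ᵥ ω) ∈ A <;> simp [c1, c2]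
    rw [hcorr] at hx3
    have hx4 : δ ^ (k + 1) - ε / 2 ≤
        (((univ : Finset (Tor d N)).filter (fun ω => lift b ω ∈ A ∧ lift b ((∑ i, g i (x i)) +ᵥ ω) ∈ A)).card : ℝ) /
          (N : ℝ) ^ d := by
      have := pow_le_pow_left₀ hδ hδf (k + 1)
      linarith
    rw [le_div_iff₀ (by positivity)] at hx4
    calc (δ ^ (k + 1) - ε / 2) * (N : ℝ) ^ d * N ≤ _ := mul_le_mul_of_nonneg_right hx4 hNR.le
      _ ≤ _ := transfer A b _
  choose Nf hNf bf Sf hSf1 hSf2 hSf3 using hstep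
  -- pigeonhole
  obtain ⟨S, hSinf⟩ : ∃ S ∈ (Fintype.piFinset (fun _ : Fin (k + 1) => V)).powerset, {N₀ | Sf N₀ = S}.Infinite := by
    have hmap : ∀ N₀, Sf N₀ ∈ (Fintype.piFinset (fun _ : Fin (k + 1) => V)).powerset := fun N₀ => mem_powerset.2 (hSf1 N₀)
    by_contra hcon
    push Not at hcon
    have hfin : (⋃ S ∈ (Fintype.piFinset (fun _ : Fin (k + 1) => V)).powerset, {N₀ | Sf N₀ = S}).Finite :=
      Set.Finite.biUnion (finite_toSet _) (fun S hS => hcon S hS)
    apply Set.infinite_univ (α := ℕ)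
    refine hfin.subset ?_
    intro N₀ _
    rw [Set.mem_iUnion₂]
    exact ⟨Sf N₀, hmap N₀, rfl⟩
  obtain ⟨hSV, hSinf⟩ := hSinf
  obtain ⟨N₁, hN₁⟩ := hSinf.nonempty
  have hN₁' : Sf N₁ = S := hN₁
  have hcard : c * (V.card : ℝ) ^ (k + 1) ≤ (S.card : ℝ) := by
    rw [← hN₁']
    exact hSf2 N₁
  refine hcard.trans ?_
  rw [← Set.ncard_coe_finset]
  have hfin : ({x : Fin (k + 1) → ℕ | (∀ i, x i ∈ V) ∧ Function.Injective x ∧
        {n : ℕ | ∀ i, (n + x i).Prime}.Infinite ∧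
        DenseIn {a | a ∈ A ∧ a + ∑ i, g i (x i) ∈ A} (δ ^ (k + 1) - ε)}).Finite := by
    refine (finite_toSet (Fintype.piFinset (fun _ : Fin (k + 1) => V))).subset ?_
    intro x hx
    rw [mem_coe, Fintype.mem_piFinset]
    exact hx.1
  have hle := Set.ncard_le_ncard (s := (S : Set (Fin (k + 1) → ℕ))) (t := {x : Fin (k + 1) → ℕ | (∀ i, x i ∈ V) ∧ Function.Injective x ∧
        {n : ℕ | ∀ i, (n + x i).Prime}.Infinite ∧
        DenseIn {a | a ∈ A ∧ a + ∑ i, g i (x i) ∈ A} (δ ^ (k + 1) - ε)}) ?_ hfin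
  · exact_mod_cast hle
  intro x hxS
  have hxS' : x ∈ S := hxS
  have hx0 := hSf3 N₁ x (by rw [hN₁']; exact hxS')
  refine ⟨?_, hx0.1, hx0.2.1, ?_⟩
  · have := mem_powerset.1 hSV hxS'
    rw [Fintype.mem_piFinset] at this
    exact this
  · intro N₀
    set C : ℝ := ∑ j, |(((∑ i, g i (x i)) j : ℤ) : ℝ)| with hC
    have hC0 : 0 ≤ C := sum_nonneg fun j _ => abs_nonneg _
    obtain ⟨N₂, hN₂, hN₂'⟩ := hSinf.exists_gt (max (max N₀ 1) ⌈2 * C / ε⌉₊)
    have hN₂S : Sf N₂ = S := hN₂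
    have hb := (hSf3 N₂ x (by rw [hN₂S]; exact hxS')).2.2
    have hNN := hNf N₂
    have h1 : N₀ ≤ Nf N₂ := by
      have := (le_max_left N₀ 1).trans (le_max_left (max N₀ 1) ⌈2 * C / ε⌉₊)
      omega
    have h2 : 1 ≤ Nf N₂ := by
      have := (le_max_right N₀ 1).trans (le_max_left (max N₀ 1) ⌈2 * C / ε⌉₊)
      omega
    have h3 : 2 * C / ε ≤ (Nf N₂ : ℝ) := by
      have a1 := Nat.le_ceil (2 * C / ε)
      have a2 : ⌈2 * C / ε⌉₊ ≤ Nf N₂ := by
        have := le_max_right (max N₀ 1) ⌈2 * C / ε⌉₊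
        omega
      have a3 : ((⌈2 * C / ε⌉₊ : ℕ) : ℝ) ≤ (Nf N₂ : ℝ) := by exact_mod_cast a2
      linarith
    rw [div_le_iff₀ hε] at h3
    have hNR : (0 : ℝ) < Nf N₂ := by exact_mod_cast h2
    refine ⟨Nf N₂, h1, bf N₂, ?_⟩
    have h4 : C * (Nf N₂ : ℝ) ^ d ≤ (ε / 2 * Nf N₂) * (Nf N₂ : ℝ) ^ d :=
      mul_le_mul_of_nonneg_right (by linarith) (by positivity)
    have h5 : (δ ^ (k + 1) - ε) * (Nf N₂ : ℝ) ^ d * Nf N₂ ≤
        (({a | a ∈ A ∧ a + ∑ i, g i (x i) ∈ A} ∩ cube (bf N₂) (Nf N₂)).ncard : ℝ) * Nf N₂ := by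
      calc (δ ^ (k + 1) - ε) * (Nf N₂ : ℝ) ^ d * Nf N₂ =
            (δ ^ (k + 1) - ε / 2) * (Nf N₂ : ℝ) ^ d * Nf N₂ - (ε / 2 * Nf N₂) * (Nf N₂ : ℝ) ^ d := by ring
        _ ≤ _ := by linarith
    exact le_of_mul_le_mul_right h5 hNR

end Pool.Agent.H78.CR
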