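import Mathlib
import Pool.Agent.H78.CR.Cap

set_option autoImplicit false

/-! The exponent `k + 1` is optimal. -/

namespace Pool.Agent.H78.CR

open Finset MeasureTheory

section

variable (K J : Type) (V : Finset ℕ)

/-- the space of the example -/
def Om : Type := K × (V → J)

instance : MeasurableSpace (Om K J V) := ⊤

instance : MeasurableSingletonClass (Om K J V) := ⟨fun _ => trivial⟩

instance [Fintype K] [Fintype J] : Fintype (Om K J V) := by
  classical
  unfold Om; infer_instance

variable [AddCommGroup K]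

instance : AddAction ((V → J) → K) (Om K J V) where
  vadd g ω := (g ω.2 + ω.1, ω.2)
  zero_vadd ω := by
    show ((0 : K) + ω.1, ω.2) = ω
    rw [zero_add]
    rfl
  add_vadd g h ω := by
    show ((g ω.2 + h ω.2) + ω.1, ω.2) = (g ω.2 + (h ω.2 + ω.1), ω.2)
    rw [add_assoc]

variable [Fintype K] [Fintype J]

/-- the uniform probability measure -/
noncomputable def um : Measure (Om K J V) := ((Fintype.card (Om K J V) : ENNReal))⁻¹ • Measure.count

lemma um_prob [Nonempty J] : IsProbabilityMeasure (um K J V) := by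
  classical
  constructor
  have hne : Nonempty (Om K J V) := ⟨((0 : K), fun _ => Classical.arbitrary J)⟩
  unfold um
  rw [Measure.smul_apply, Measure.count_univ, smul_eq_mul, ENat.card_eq_coe_fintype_card]
  apply ENNReal.inv_mul_cancel
  · simp
  · simp

lemma um_mp (g : (V → J) → K) : MeasurePreserving (fun ω : Om K J V => g +ᵥ ω) (um K J V) (um K J V) := by
  have hbij : Function.Bijective (fun ω : Om K J V => g +ᵥ ω) := AddAction.bijective g
  refine ⟨fun _ _ => trivial, ?_⟩
  unfold um
  rw [Measure.map_smul]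
  congr 1
  have hm : Measurable (fun ω : Om K J V => g +ᵥ ω) := fun _ _ => trivial
  ext s hs
  rw [Measure.map_apply hm hs, Measure.count_apply, Measure.count_apply hs]
  · congr 1
    exact Set.encard_preimage_of_bijective hbij s
  · trivial

lemma um_int (F : Om K J V → ℝ) : ∫ ω, F ω ∂(um K J V) = (∑ ω, F ω) / Fintype.card (Om K J V) := by
  unfold um
  rw [integral_smul_measure, integral_count, ENNReal.toReal_inv, ENNReal.toReal_natCast, smul_eq_mul,
    inv_mul_eq_div]

end

open Classical in
lemma count_const (J : Type) [Fintype J] (V : Finset ℕ) (k : ℕ) (x : Fin (k + 1) → V)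
    (hx : Function.Injective x) :
    ((univ : Finset (V → J)).filter (fun j => ∀ i, j (x i) = j (x 0))).card * Fintype.card J ^ k ≤
      Fintype.card (V → J) := by
  have h1 : Fintype.card J ^ k = Fintype.card (Fin k → J) := by
    rw [Fintype.card_fun, Fintype.card_fin]
  rw [h1, ← card_univ (α := Fin k → J), ← card_product, ← card_univ (α := V → J)]
  apply card_le_card_of_injOn (fun q v => if h : ∃ i : Fin k, x i.succ = v then q.2 h.choose else q.1 v)
  · intro q _
    exact mem_coe.2 (mem_univ _)
  · intro q hq q' hq' h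
    rw [mem_coe, mem_product, mem_filter] at hq hq'
    have h2 : q.2 = q'.2 := by
      funext i
      have h3 := congrFun h (x i.succ)
      have hex : ∃ i' : Fin k, x i'.succ = x i.succ := ⟨i, rfl⟩
      simp only [dif_pos hex] at h3
      have h4 : hex.choose = i := by
        have := hex.choose_spec
        exact Fin.succ_injective _ (hx this)
      rw [h4] at h3
      exact h3
    have h0 : ¬ ∃ i : Fin k, x i.succ = x 0 := by
      rintro ⟨i, hi⟩
      exact Fin.succ_ne_zero i (hx hi)
    have h5 : q.1 (x 0) = q'.1 (x 0) := by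
      have h3 := congrFun h (x 0)
      simp only [dif_neg h0] at h3
      exact h3
    refine Prod.ext ?_ h2
    funext v
    by_cases hv : ∃ i : Fin k, x i.succ = v
    · obtain ⟨i, rfl⟩ := hv
      rw [hq.1.2, hq'.1.2, h5]
    · have h3 := congrFun h v
      simp only [dif_neg hv] at h3
      exact h3

/-- **the exponent is optimal** -/
theorem optimal (k : ℕ) (hk : 1 ≤ k) (θ : ℝ) (hθ : θ < k + 1) : ∃ δ : ℝ, 0 < δ ∧ δ < 1 ∧ ∀ V : Finset ℕ,
    ∃ (G : Type) (_ : AddCommGroup G) (Ω : Type) (_ : MeasurableSpace Ω) (_ : AddAction G Ω) (μ : Measure Ω)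
      (_ : IsProbabilityMeasure μ) (f : Ω → ℝ) (g : Fin (k + 1) → ℕ → G),
      (∀ a : G, MeasurePreserving (fun ω : Ω => a +ᵥ ω) μ μ) ∧ Measurable f ∧ (∀ ω, f ω = 0 ∨ f ω = 1) ∧
      ∫ ω, f ω ∂μ = δ ∧ (∀ v, ∑ i, g i v = 0) ∧
      ∀ x : Fin (k + 1) → ℕ, (∀ i, x i ∈ V) → Function.Injective x →
        ∫ ω, f ω * f ((∑ i, g i (x i)) +ᵥ ω) ∂μ < δ ^ θ := by
  classical
  obtain ⟨K, _, _, J, _, b, hb, hK, hJ, hKJ⟩ := exists_cap k hk (θ - 1) (by linarith)
  have hKR : (1 : ℝ) < Fintype.card K := by exact_mod_cast hK
  have hJR : (0 : ℝ) < Fintype.card J := by exact_mod_cast hJ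
  have hne : Nonempty J := Fintype.card_pos_iff.1 hJ
  refine ⟨1 / Fintype.card K, by positivity, ?_, ?_⟩
  · rw [div_lt_one (by linarith)]
    exact hKR
  intro V
  set f : Om K J V → ℝ := fun ω => if ω.1 = 0 then 1 else 0 with hf
  set g : Fin (k + 1) → ℕ → ((V → J) → K) := fun i v j =>
    if h : v ∈ V then (if i = 0 then - (k • b (j ⟨v, h⟩)) else b (j ⟨v, h⟩)) else 0 with hg
  have hcard : (Fintype.card (Om K J V) : ℝ) = Fintype.card K * Fintype.card (V → J) := by
    have : Fintype.card (Om K J V) = Fintype.card (K × (V → J)) := Fintype.card_congr (Equiv.refl _)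
    rw [this, Fintype.card_prod]
    push_cast
    rfl
  have hVJ : (0 : ℝ) < Fintype.card (V → J) := by exact_mod_cast Fintype.card_pos
  refine ⟨(V → J) → K, inferInstance, Om K J V, inferInstance, inferInstance, um K J V, um_prob K J V, f, g,
    um_mp K J V, fun _ _ => trivial, ?_, ?_, ?_, ?_⟩
  · intro ω
    simp only [hf]
    split_ifs
    · right; rfl
    · left; rfl
  · rw [um_int, hcard]
    have h1 : ∑ ω : Om K J V, f ω = Fintype.card (V → J) := by
      have h2 : ∑ ω : Om K J V, f ω = ∑ ω : K × (V → J), (if ω.1 = 0 then (1 : ℝ) else 0) := rfl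
      rw [h2, Fintype.sum_prod_type]
      simp only [sum_const, card_univ]
      rw [sum_eq_single (0 : K)]
      · simp
      · intro a _ ha
        simp [ha]
      · intro h; exact absurd (mem_univ _) h
    rw [h1]
    field_simp
  · intro v
    funext j
    rw [Finset.sum_apply, Fin.sum_univ_succ]
    simp only [hg]
    by_cases h : v ∈ V
    · simp only [dif_pos h, if_true, Fin.succ_ne_zero, if_false]
      rw [sum_const, card_univ, Fintype.card_fin, neg_add_cancel]
      rfl
    · simp [dif_neg h]
  · intro x hxV hx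
    rw [um_int, hcard]
    set x' : Fin (k + 1) → V := fun i => ⟨x i, hxV i⟩ with hx'
    have hxi : Function.Injective x' := by
      intro a c hac
      exact hx (congrArg Subtype.val hac)
    have h1 : ∑ ω : Om K J V, f ω * f ((∑ i, g i (x i)) +ᵥ ω) ≤
        (((univ : Finset (V → J)).filter (fun j => ∀ i, j (x' i) = j (x' 0))).card : ℝ) := by
      have h2 : ∑ ω : Om K J V, f ω * f ((∑ i, g i (x i)) +ᵥ ω) = ∑ ω : K × (V → J),
          (if ω.1 = 0 then (1 : ℝ) else 0) * (if (∑ i, g i (x i)) ω.2 + ω.1 = 0 then 1 else 0) := rfl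
      rw [h2, Fintype.sum_prod_type, sum_eq_single (0 : K)]
      · simp only [if_true, one_mul, add_zero]
        rw [sum_boole]
        have h3 : (univ.filter (fun j : V → J => (∑ i, g i (x i)) j = 0)) ⊆
            (univ.filter (fun j => ∀ i, j (x' i) = j (x' 0))) := by
          intro j hj
          rw [mem_filter] at hj ⊢
          refine ⟨mem_univ _, ?_⟩
          have h4 := hj.2
          rw [Finset.sum_apply, Fin.sum_univ_succ] at h4
          simp only [hg, dif_pos (hxV _), if_true, Fin.succ_ne_zero, if_false] at h4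
          have h5 := hb (fun i => j (x' i.succ)) (j (x' 0)) (by
            rw [← sub_eq_zero, sub_eq_neg_add]
            exact h4)
          intro i
          refine Fin.cases rfl (fun i => h5 i) i
        exact_mod_cast card_le_card h3
      · intro a _ ha
        simp [ha]
      · intro h; exact absurd (mem_univ _) h
    have h2 := count_const J V k x' hxi
    have h3 : (((univ : Finset (V → J)).filter (fun j => ∀ i, j (x' i) = j (x' 0))).card : ℝ) *
        (Fintype.card J : ℝ) ^ k ≤ Fintype.card (V → J) := by exact_mod_cast h2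
    have h4 : (∑ ω : Om K J V, f ω * f ((∑ i, g i (x i)) +ᵥ ω)) / (Fintype.card K * Fintype.card (V → J)) ≤
        1 / (Fintype.card K * (Fintype.card J : ℝ) ^ k) := by
      rw [div_le_div_iff₀ (by positivity) (by positivity)]
      calc (∑ ω : Om K J V, f ω * f ((∑ i, g i (x i)) +ᵥ ω)) * (Fintype.card K * (Fintype.card J : ℝ) ^ k) ≤
            (((univ : Finset (V → J)).filter (fun j => ∀ i, j (x' i) = j (x' 0))).card : ℝ) *
              (Fintype.card K * (Fintype.card J : ℝ) ^ k) := mul_le_mul_of_nonneg_right h1 (by positivity)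
        _ = Fintype.card K * ((((univ : Finset (V → J)).filter (fun j => ∀ i, j (x' i) = j (x' 0))).card : ℝ) *
              (Fintype.card J : ℝ) ^ k) := by ring
        _ ≤ Fintype.card K * Fintype.card (V → J) := mul_le_mul_of_nonneg_left h3 (by positivity)
        _ = _ := by ring
    refine h4.trans_lt ?_
    have hK0 : (0 : ℝ) < Fintype.card K := by linarith
    rw [one_div (Fintype.card K : ℝ), Real.inv_rpow hK0.le, ← one_div]
    apply one_div_lt_one_div_of_lt (Real.rpow_pos_of_pos hK0 _)
    have e : (Fintype.card K : ℝ) ^ θ = Fintype.card K * (Fintype.card K : ℝ) ^ (θ - 1) := by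
      rw [Real.rpow_sub hK0, Real.rpow_one]
      field_simp
    rw [e]
    exact mul_lt_mul_of_pos_left hKJ hK0

end Pool.Agent.H78.CR
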